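import Pool.Agent.Q158.RankInt

/-!
# MP_f8d954_co: rank-preserving interval realizers need not exist
-/

namespace Pool.Agent.Results.MP_f8d954_co.TwoPlusThree

open Q158.RankInt

/-- There is a finite ordered set of interval dimension `2` that has no rank-preserving interval
realizer of any size, in particular none consisting of two interval orders. -/
theorem result : ∃ (P : Type) (_ : Finite P) (le : P → P → Prop), IsOrder le ∧
    idim le = 2 ∧ ∀ (k : ℕ) (L : Fin k → P → P → Prop), IsRealizer le L →
      ¬ ∀ j p, rank (L j) p = rank le p :=
  result_aux

end Pool.Agent.Results.MP_f8d954_co.TwoPlusThree
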